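import Pool.Agent.P.MP_2ff09b_gt.Main

/-! A bounded convex domain with a finite-volume quotient is a bounded symmetric domain. -/

open MeasureTheory Pool.Agent.P.MP_2ff09b_gt

theorem Pool.Agent.Results.MP_2ff09b_gt.ConvexSym.result (n : ℕ) (D : Set (Fin n → ℂ))
    (hne : D.Nonempty) (ho : IsOpen D) (hb : Bornology.IsBounded D) (hc : Convex ℝ D)
    (Γ : Subgroup (Equiv.Perm (Fin n → ℂ))) (hΓ : Γ ≤ autGroup D) (hd : IsDiscreteAut D Γ)
    (_hfree : ActsFreely D Γ)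
    (hvol : ∃ F : Set (Fin n → ℂ), IsFundamentalDomain Γ F (bergVol D) ∧ bergVol D F < ⊤) :
    IsBoundedSymmetricDomain D := by
  obtain ⟨F, hF, hfin⟩ := hvol
  exact symmetric_of_finite_volume ⟨ho, hc, hb, hne⟩ hΓ hd hF hfin
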